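import Pool.Agent.Lib.DA.M3

/-!
Henselian rationality of all rank one points of transcendence defect one, residue characteristic
`p`, algebraically closed ground field of characteristic `0` or `p`.
-/

namespace Pool.Agent.Results.MP_1a953e_ag.HenselianRationality

open IsLocalRing MP1a953e

universe v

/-- Let `k` be an algebraically closed field with a nontrivial nonarchimedean absolute value with
`‖p‖ < 1` for a prime `p` (residue characteristic `p`; `k` has characteristic `0` or `p`), `L/k` a
finitely generated field extension with an absolute value extending the one of `k`. Let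
`e 0, …, e (r-1)` be nonzero elements of `L` whose values form a basis of the group
`(|L*| / |k*|) ⊗ ℚ` (`hind`: they are independent, `htors`: they span), let `m` be the
transcendence degree of the residue field of `L` over the residue field of `k`, and assume that the
transcendence defect is one: `L/k` has transcendence degree `r + m + 1`. Then there are
algebraically independent elements `y 0, …, y (r+m)` of `L` such that `L` is a separable algebraic
extension of `k(y 0, …, y (r+m))` and `k(y 0, …, y (r+m))` is dense in `L`. -/
theorem result {p : ℕ} [Fact p.Prime] {k L : Type v} [NontriviallyNormedField k]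
    [IsUltrametricDist k] [IsAlgClosed k] (hp : ‖(p : k)‖ < 1) [NormedField L]
    [IsUltrametricDist L] [NormedAlgebra k L] (hfg : (⊤ : IntermediateField k L).FG) {r m : ℕ}
    (e : Fin r → L) (hne : ∀ i, e i ≠ 0)
    (hind : ∀ (z : Fin r → ℤ) (c : k), ‖c‖ = ‖∏ i, e i ^ z i‖ → z = 0)
    (htors : ∀ x : L, x ≠ 0 → ∃ n : ℕ, 0 < n ∧ ∃ (z : Fin r → ℤ) (c : k),
      ‖x‖ ^ n = ‖c‖ * ‖∏ i, e i ^ z i‖)
    (hres : Algebra.trdeg (ResidueField (O k)) (ResidueField (O L)) = m)
    (htr : Algebra.trdeg k L = r + m + 1) :
    ∃ y : Fin (r + m + 1) → L, AlgebraicIndependent k y ∧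
      Algebra.IsSeparable (IntermediateField.adjoin k (Set.range y)) L ∧
      ∀ x : L, ∀ ε : ℝ, 0 < ε → ∃ z ∈ IntermediateField.adjoin k (Set.range y), ‖x - z‖ < ε :=
  (DA.main3 (p := p) hp hfg e hne hind htors hres htr).1

end Pool.Agent.Results.MP_1a953e_ag.HenselianRationality
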