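import Pool.Agent.Lib.TR.C5

/-!
Local uniformization (with monomialization of finite sets) of models of smooth varieties of any
dimension at points of the adic space of any support and any rank, residue characteristic `p`,
algebraically closed ground field of characteristic `0` or `p`: all points whose canonical lift to
an algebraically closed immediate extension of the ground field (for example its spherical
completion) has transcendence defect at most one, with any composite valuation of rank one steps of
defect at most one.
-/

namespace Pool.Agent.Results.MP_1a953e_ag.LiftedDefect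

open IsLocalRing MP1a953e

set_option linter.unusedSectionVars false

/-- The semistable model ring `R [X 0, …, X r] / (X 0 * ⋯ * X r - ϖ)`. -/
abbrev SemistableRing {R : Type*} [CommRing R] (r : ℕ) (ϖ : R) : Type _ :=
  MvPolynomial (Fin (r + 1)) R ⧸
    Ideal.span {(∏ i, MvPolynomial.X i - MvPolynomial.C ϖ : MvPolynomial (Fin (r + 1)) R)}

/-- The `R`-algebra `B` is smooth over the semistable model ring
`R [X 0, …, X r] / (X 0 * ⋯ * X r - ϖ)`, by a homomorphism which maps the class of the coordinate
`X i` to `t i`. -/
def IsSemistableOver {R B : Type*} [CommRing R] [CommRing B] [Algebra R B] {r : ℕ} (ϖ : R)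
    (t : Fin (r + 1) → B) : Prop :=
  ∃ φ : SemistableRing r ϖ →ₐ[R] B, φ.toRingHom.Smooth ∧
    ∀ i, φ (Ideal.Quotient.mk _ (MvPolynomial.X i)) = t i

section
variable {R S : Type*} (T : Type*) [CommRing R] [CommRing S] [CommRing T] [Algebra R S]
  [Algebra R T] [Algebra S T]

/-- The chart `A[f i / f 0]` of the blow-up of the ideal `(f 0, …, f n)` of `A`, as a subalgebra of
the `S`-algebra `T` (where `T` is a localization of the domain `S ⊇ A` in which `f 0` is a unit). -/
noncomputable def blowupChart (A : Subalgebra R S) {n : ℕ} (f : Fin (n + 1) → S) :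
    Subalgebra R T :=
  Algebra.adjoin R {x | (∃ a ∈ A, algebraMap S T a = x) ∨
    ∃ i, algebraMap S T (f 0) * x = algebraMap S T (f i)}

variable {T}

/-- `x` is a nonzero constant of `k` times a quotient of monomials in the `t i` times a unit of
`B`. -/
def IsMonomialUpToUnit (k : Type*) [Field k] [Algebra k T] (B : Subalgebra R T) {r : ℕ}
    (t : Fin (r + 1) → B) (x : T) : Prop :=
  ∃ (n m : Fin (r + 1) → ℕ) (c : k) (v : Bˣ), c ≠ 0 ∧
    x * ∏ i, (t i : T) ^ n i = algebraMap k T c * (∏ i, (t i : T) ^ m i) * (v : B)

end

/-- The values of the nonzero elements `e i` of `L` form a basis of the group `(|L*| / |k*|) ⊗ ℚ`: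
they are independent modulo `|k*|`, and a power of every value is in the group generated by them and
`|k*|`. -/
def IsValueBasis (k : Type*) {L : Type*} [NormedField k] [NormedField L] {r : ℕ}
    (e : Fin r → L) : Prop :=
  (∀ i, e i ≠ 0) ∧ (∀ (z : Fin r → ℤ) (c : k), ‖c‖ = ‖∏ i, e i ^ z i‖ → z = 0) ∧
    ∀ x : L, x ≠ 0 → ∃ n : ℕ, 0 < n ∧ ∃ (z : Fin r → ℤ) (c : k),
      ‖x‖ ^ n = ‖c‖ * ‖∏ i, e i ^ z i‖

/-- The unit ball `{x | ‖x‖ ≤ 1}` of `L`, as a valuation ring. -/
def unitBall (L : Type) [NormedField L] [IsUltrametricDist L] : ValuationSubring L where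
  carrier := {x | ‖x‖ ≤ 1}
  mul_mem' := fun {a b} ha hb => by
    show ‖a * b‖ ≤ 1
    rw [norm_mul]
    exact mul_le_one₀ ha (norm_nonneg _) hb
  one_mem' := by
    show ‖(1 : L)‖ ≤ 1
    rw [norm_one]
  add_mem' := fun {a b} ha hb => by
    show ‖a + b‖ ≤ 1
    exact (IsUltrametricDist.norm_add_le_max a b).trans (max_le ha hb)
  zero_mem' := by
    show ‖(0 : L)‖ ≤ 1
    rw [norm_zero]
    exact zero_le_one
  neg_mem' := fun {a} ha => by
    show ‖-a‖ ≤ 1
    rw [norm_neg]
    exact ha
  mem_or_inv_mem' x := by
    show ‖x‖ ≤ 1 ∨ ‖x⁻¹‖ ≤ 1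
    rw [norm_inv]
    rcases le_total ‖x‖ 1 with h | h
    · exact Or.inl h
    · exact Or.inr (inv_le_one_of_one_le₀ h)

/-- The step from `V1` to `V ≤ V1` is discrete: the valuation ring `W` which `V` induces on the residue
field of `V1` is discrete of rank one (the values in the value group of `V` of the units of `V1` form
an infinite cyclic group). -/
def IsDiscreteStep {K : Type} [Field K] (V1 V : ValuationSubring K) : Prop :=
  ∃ π : K, V1.valuation π = 1 ∧ V.valuation π < 1 ∧
    ∀ z : K, V1.valuation z = 1 → ∃ n : ℤ, V.valuation z = V.valuation (π ^ n)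

/-- The step from `V1` to `V ≤ V1` has rank one and rational rank `r ≥ 1`: the value group of `W` is
archimedean, it contains `r` rationally independent elements, but no `r + 1` such elements. -/
def IsRankOneStep {K : Type} [Field K] (V1 V : ValuationSubring K) (r : ℕ) : Prop :=
  0 < r ∧
  (∀ a b : K, V1.valuation a = 1 → V1.valuation b = 1 → V.valuation b < 1 →
    ∃ n : ℕ, V.valuation (b ^ n) ≤ V.valuation a) ∧
  (∃ x : Fin r → K, (∀ i, V1.valuation (x i) = 1) ∧
    ∀ m : Fin r → ℤ, V.valuation (∏ i, x i ^ m i) = 1 → m = 0) ∧
  ∀ z : Fin (r + 1) → K, (∀ i, V1.valuation (z i) = 1) →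
    ∃ m : Fin (r + 1) → ℤ, m ≠ 0 ∧ V.valuation (∏ i, z i ^ m i) = 1

section
variable (k : Type) {L : Type} [NormedField k] [IsUltrametricDist k] [NormedField L]
  [IsUltrametricDist L] [NormedAlgebra k L]

/-- The residues of the `y j` in the residue field of `V` are algebraically independent over the residue
field of `k`: a polynomial over `k` with coefficients of absolute value at most one, not all of them
smaller than one, takes at `y` a value which is a unit of `V`. -/
def ResiduesIndependent (V : ValuationSubring L) {m : ℕ} (y : Fin m → L) : Prop :=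
  ∀ P : MvPolynomial (Fin m) k, (∀ s, ‖P.coeff s‖ ≤ 1) → (∃ s, ‖P.coeff s‖ = 1) →
    V.valuation (MvPolynomial.aeval y P) = 1

/-- The transcendence degree of the residue field of `V` over the residue field of `k` is `s`. -/
def ResidueTrdeg (V : ValuationSubring L) (s : ℕ) : Prop :=
  (∃ y : Fin s → L, (∀ i, y i ∈ V) ∧ ResiduesIndependent k V y) ∧
    ∀ y : Fin (s + 1) → L, (∀ i, y i ∈ V) → ¬ ResiduesIndependent k V y

/-- `V` is composed of the unit ball of `L` and finitely many valuations of rank one, each of them discrete
or of transcendence defect at most one: there is a chain of valuation rings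
`V 0 ⊇ V 1 ⊇ ... ⊇ V n = V`, `V 0` the unit ball, such that the valuation ring `W` induced by
`V (i + 1)` on the residue field `κ` of `V i` has rank one and is either discrete, or the transcendence
degree of `κ` over the residue field of `k` is at most `r + s + 1`, where `r` is the rational rank of
`W` and `s` is the transcendence degree of the residue field of `W`. The integer `r` in
`IsComposite k V r` is the sum of the rational ranks. -/
inductive IsComposite : ValuationSubring L → ℕ → Prop
  | base : IsComposite (unitBall L) 0
  | discrete (V1 V : ValuationSubring L) (r : ℕ) :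
      IsComposite V1 r → V ≤ V1 → IsDiscreteStep V1 V → IsComposite V (r + 1)
  | defect (V1 V : ValuationSubring L) (r1 r s t : ℕ) :
      IsComposite V1 r1 → V ≤ V1 → IsRankOneStep V1 V r → ResidueTrdeg k V s →
      ResidueTrdeg k V1 t → t ≤ r + s + 1 → IsComposite V (r1 + r)

variable {k}

theorem IsComposite.toVComp {V : ValuationSubring L} {r : ℕ} (h : IsComposite k V r) :
    CS.VComp k V r := by
  induction h with
  | base => exact CS.VComp.base
  | discrete V1 V r _ hle h2 ih => exact CS.VComp.discrete V1 V r ih hle h2
  | defect V1 V r1 r s t _ hle h2 hs ht hst ih =>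
    exact CS.VComp.defect V1 V r1 r s t ih hle ⟨h2.2.1, h2.1, h2.2.2.1, h2.2.2.2⟩ hs ht hst

end

/-- `M` is the canonical lift of the normed extension `L` of `k` to the immediate extension `k'` of `k`:
the normed field `M` contains `k'` and `L` (over `k`) and is generated by them, and the elements of
`L` are as independent over `k'` as they are over `k`: if `l 0, …, l (n-1)` in `L` are
`α`-orthogonal over `k`, that is `‖∑ j, b j * l j‖ ≥ α * ‖b i‖ * ‖l i‖` for all `i` and all `b j` in
`k`, then they are `α`-orthogonal over `k'`. (`M` is the fraction field of `L ⊗ k'` with the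
tensor product norm, which is multiplicative, because `k` is algebraically closed.) -/
structure IsCanonicalLift (k k' L M : Type) [NontriviallyNormedField k] [NormedField k']
    [NormedAlgebra k k'] [NormedField L] [NormedAlgebra k L] [NormedField M] [NormedAlgebra k' M]
    [NormedAlgebra L M] : Prop where
  comm : ∀ x : k, algebraMap k' M (algebraMap k k' x) = algebraMap L M (algebraMap k L x)
  immediate : ∀ x : k', x ≠ 0 → ∃ b : k, ‖x - algebraMap k k' b‖ < ‖x‖
  generated : IntermediateField.adjoin k' (Set.range (algebraMap L M)) = ⊤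
  orthogonal : ∀ (n : ℕ) (l : Fin n → L) (α : ℝ), 0 < α →
    (∀ (b : Fin n → k) (i : Fin n),
      α * (‖b i‖ * ‖l i‖) ≤ ‖∑ j, algebraMap k L (b j) * l j‖) →
    ∀ (b : Fin n → k') (i : Fin n),
      α * (‖b i‖ * ‖l i‖) ≤ ‖∑ j, algebraMap k' M (b j) * algebraMap L M (l j)‖

/-- Let `k` be a complete algebraically closed field with a nontrivial nonarchimedean absolute value
with `‖p‖ < 1` for a prime `p` (residue characteristic `p`; `k` has characteristic `0` or `p`). Let
`S` be a domain over `k`, `A` a finitely generated `O k`-subalgebra of `S` with `k A = S` (a model of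
the affine variety `Spec S`), `P` a prime ideal of `S`, `T` the local ring of `S` at `P`, smooth
over `k`, and `L` the residue field of `T`, with an absolute value which extends the one of `k`. Let
`k'` be an algebraically closed immediate extension of `k` (for example the spherical completion of
`k`, or `k` itself) and `M` the canonical lift of `L` to `k'`. Let `e 0, …, e (r-1)` be elements of
`M` whose values form a basis of the group `(|M*| / |k'*|) ⊗ ℚ`, let `m` be the transcendence degree
of the residue field of `O M` over the residue field of `k'`, and assume that the transcendence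
defect `δ` of `M/k'` is at most one: `L/k` has transcendence degree `r + m + δ`. (If `k'` is the
spherical completion then this can only be smaller than the transcendence defect of `L/k`; for
`k' = k` it is the defect of `L/k`.)
Let `V` be a valuation ring of `L` which contains the valuation ring of `k` and the image of `A` and
is composed of the unit ball of `L` and of finitely many valuations of rank one which are discrete
or of transcendence defect at most one (`IsComposite`; `P` and `V` are a point of the adic space of
`Spec S`, in the domain given by the model). Let `E` be a finite subset of `S ∖ P`. Then there are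
`f 0, …, f n` in `A`, `f 0 ∉ P`, one of which is a nonzero constant of `O k`, such that the residues
of the elements of the chart `B = A[f i / f 0] ⊆ T` are in `V`, and `B` is smooth over a semistable
model ring `O k [X 0, …, X d] / (X 0 * ⋯ * X d - ϖ)`, `ϖ ≠ 0`, `‖ϖ‖ < 1`, such that the residues of
the images `t i` of the coordinates `X i` are in the maximal ideal of `V`, and each element of `E`
is a nonzero constant of `k` times a quotient of monomials in the `t i` times a unit of `B`. -/
theorem result {p : ℕ} [Fact p.Prime] {k k' S T L M : Type} [NontriviallyNormedField k]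
    [CompleteSpace k] [IsUltrametricDist k] [IsAlgClosed k] (hp : ‖(p : k)‖ < 1) [NormedField k']
    [IsUltrametricDist k'] [IsAlgClosed k'] [NormedAlgebra k k'] [CommRing S] [IsDomain S]
    [Algebra k S] (P : Ideal S) [P.IsPrime] [CommRing T] [Algebra k T] [Algebra S T]
    [IsScalarTower k S T] [IsLocalization.AtPrime T P] [Algebra.FormallySmooth k T]
    [NormedField L] [IsUltrametricDist L] [NormedAlgebra k L] [Algebra T L] [IsScalarTower k T L]
    (hL : Function.Surjective (algebraMap T L)) [NormedField M] [IsUltrametricDist M]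
    [NormedAlgebra k' M] [NormedAlgebra L M] (hM : IsCanonicalLift k k' L M) {r m δ : ℕ}
    (e : Fin r → M) (he : IsValueBasis k' e)
    (hres : Algebra.trdeg (ResidueField (O k')) (ResidueField (O M)) = (m : Cardinal))
    (hδ : δ ≤ 1) (htr : Algebra.trdeg k L = ((r + m + δ : ℕ) : Cardinal))
    (V : ValuationSubring L) (hk : ∀ c : k, ‖c‖ ≤ 1 → algebraMap k L c ∈ V) {s : ℕ}
    (hV : IsComposite k V s) (A : Subalgebra (O k) S) (hA : A.FG)
    (hAS : ∀ x : S, ∃ c : k, c ≠ 0 ∧ c • x ∈ A)
    (hAV : ∀ a ∈ A, algebraMap T L (algebraMap S T a) ∈ V) (E : Finset S)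
    (hE : ∀ x ∈ E, x ∉ P) :
    ∃ (n : ℕ) (f : Fin (n + 1) → S), (∀ i, f i ∈ A) ∧ f 0 ∉ P ∧
      (∃ i, ∃ c : O k, c ≠ 0 ∧ f i = algebraMap (O k) S c) ∧
      (∀ b ∈ blowupChart T A f, algebraMap T L b ∈ V) ∧
      ∃ (d : ℕ) (ϖ : O k) (t : Fin (d + 1) → blowupChart T A f), ϖ ≠ 0 ∧ ‖(ϖ : k)‖ < 1 ∧
        IsSemistableOver ϖ t ∧ (∀ i, V.valuation (algebraMap T L (t i)) < 1) ∧
        ∀ x ∈ E, IsMonomialUpToUnit k (blowupChart T A f) t (algebraMap S T x) := by
  obtain ⟨d, n, f, hf, hf0, hfc, hV', ϖ, hϖ, hϖ1, φ, hφ, hφV, hφE⟩ := TR.charts_lift hp P hL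
    ⟨hM.comm, hM.immediate, hM.generated, hM.orthogonal⟩ e he.1 he.2.1 he.2.2 hres hδ htr
    hV.toVComp hk A hA hAS hAV E hE
  refine ⟨n, f, hf, hf0, hfc, hV', d, ϖ, fun i => φ (DS.SS.x i), hϖ, hϖ1,
    ⟨φ.comp (DS.SS.equiv d ϖ).toAlgHom, hφ, fun i => rfl⟩, hφV, fun x hx => ?_⟩
  obtain ⟨n, m, c, v, v', hc, hv, hv', hvv, hrel⟩ := hφE x hx
  exact ⟨n, m, c, ⟨⟨v, hv⟩, ⟨v', hv'⟩, Subtype.ext hvv, Subtype.ext ((mul_comm _ _).trans hvv)⟩, hc,
    hrel⟩

end Pool.Agent.Results.MP_1a953e_ag.LiftedDefect
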