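import Pool.Agent.Lib.DS.Surf

/-!
Local uniformization (with monomialization of finite sets) at all points of surfaces, residue
characteristic `p`: every point of the adic space of a smooth variety whose support has dimension at
most two has a semistable chart in an admissible blow-up of a given model.
-/

namespace Pool.Agent.Results.MP_1a953e_ag.SurfacePoints

open IsLocalRing MP1a953e

/-- The semistable model ring `R [X 0, …, X r] / (X 0 * ⋯ * X r - ϖ)`. -/
abbrev SemistableRing {R : Type*} [CommRing R] (r : ℕ) (ϖ : R) : Type _ :=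
  MvPolynomial (Fin (r + 1)) R ⧸
    Ideal.span {(∏ i, MvPolynomial.X i - MvPolynomial.C ϖ : MvPolynomial (Fin (r + 1)) R)}

/-- The `R`-algebra `B` is smooth over the semistable model ring
`R [X 0, …, X r] / (X 0 * ⋯ * X r - ϖ)`, by a homomorphism which maps the class of the coordinate
`X i` to `t i`. -/
def IsSemistableOver {R B : Type*} [CommRing R] [CommRing B] [Algebra R B] {r : ℕ} (ϖ : R)
    (t : Fin (r + 1) → B) : Prop :=
  ∃ φ : SemistableRing r ϖ →ₐ[R] B, φ.toRingHom.Smooth ∧
    ∀ i, φ (Ideal.Quotient.mk _ (MvPolynomial.X i)) = t i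

section
variable {R S : Type*} (T : Type*) [CommRing R] [CommRing S] [CommRing T] [Algebra R S]
  [Algebra R T] [Algebra S T]

/-- The chart `A[f i / f 0]` of the blow-up of the ideal `(f 0, …, f n)` of `A`, as a subalgebra of
the `S`-algebra `T` (where `T` is a localization of the domain `S ⊇ A` in which `f 0` is a unit). -/
noncomputable def blowupChart (A : Subalgebra R S) {n : ℕ} (f : Fin (n + 1) → S) :
    Subalgebra R T :=
  Algebra.adjoin R {x | (∃ a ∈ A, algebraMap S T a = x) ∨
    ∃ i, algebraMap S T (f 0) * x = algebraMap S T (f i)}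

variable {T}

/-- `x` is a nonzero constant of `k` times a quotient of monomials in the `t i` times a unit of
`B`. -/
def IsMonomialUpToUnit (k : Type*) [Field k] [Algebra k T] (B : Subalgebra R T) {r : ℕ}
    (t : Fin (r + 1) → B) (x : T) : Prop :=
  ∃ (n m : Fin (r + 1) → ℕ) (c : k) (v : Bˣ), c ≠ 0 ∧
    x * ∏ i, (t i : T) ^ n i = algebraMap k T c * (∏ i, (t i : T) ^ m i) * (v : B)

end

/-- Let `k` be a complete algebraically closed field with a nontrivial nonarchimedean absolute value
with `‖p‖ < 1` for a prime `p` (residue characteristic `p`; `k` has characteristic `0` or `p`). Let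
`S` be a domain over `k`, `A` a finitely generated `O k`-subalgebra of `S` with `k A = S` (a model of
the affine variety `Spec S`), `P` a prime ideal of `S`, `T` the local ring of `S` at `P`, smooth
over `k`, and `L` the residue field of `T`, of transcendence degree at most two over `k` (always the
case if `Spec S` is a surface). Let `V` be any valuation ring of `L` which contains the image of `A`,
has `V ∩ k = O k`, and in which every element of `L` becomes integral after multiplication by a
nonzero constant: `P` and `V` are an arbitrary point of the adic space of `Spec S`, in the domain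
given by the model. Let `E` be a finite subset of `S ∖ P`. Then there are `f 0, …, f n` in `A`,
`f 0 ∉ P`, one of which is a nonzero constant of `O k`, such that the residues of the elements of the
chart `B = A[f i / f 0] ⊆ T` are in `V`, and `B` is smooth over a semistable model ring
`O k [X 0, …, X d] / (X 0 * ⋯ * X d - ϖ)`, `ϖ ≠ 0`, `‖ϖ‖ < 1`, such that the residues of the images
`t i` of the coordinates `X i` are in the maximal ideal of `V`, and each element of `E` is a nonzero
constant of `k` times a quotient of monomials in the `t i` times a unit of `B`. -/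
theorem result {p : ℕ} [Fact p.Prime] {k S T L : Type} [NontriviallyNormedField k]
    [CompleteSpace k] [IsUltrametricDist k] [IsAlgClosed k] (hp : ‖(p : k)‖ < 1) [CommRing S]
    [IsDomain S] [Algebra k S] (P : Ideal S) [P.IsPrime] [CommRing T] [Algebra k T] [Algebra S T]
    [IsScalarTower k S T] [IsLocalization.AtPrime T P] [Algebra.FormallySmooth k T]
    [Field L] [Algebra k L] [Algebra T L] [IsScalarTower k T L]
    (hL : Function.Surjective (algebraMap T L)) (htr : Algebra.trdeg k L ≤ 2)
    (V : ValuationSubring L) (hk : ∀ c : k, algebraMap k L c ∈ V ↔ ‖c‖ ≤ 1)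
    (hV : ∀ x : L, ∃ c : k, c ≠ 0 ∧ algebraMap k L c * x ∈ V)
    (A : Subalgebra (O k) S) (hA : A.FG) (hAS : ∀ x : S, ∃ c : k, c ≠ 0 ∧ c • x ∈ A)
    (hAV : ∀ a ∈ A, algebraMap T L (algebraMap S T a) ∈ V) (E : Finset S)
    (hE : ∀ x ∈ E, x ∉ P) :
    ∃ (n : ℕ) (f : Fin (n + 1) → S), (∀ i, f i ∈ A) ∧ f 0 ∉ P ∧
      (∃ i, ∃ c : O k, c ≠ 0 ∧ f i = algebraMap (O k) S c) ∧
      (∀ b ∈ blowupChart T A f, algebraMap T L b ∈ V) ∧
      ∃ (d : ℕ) (ϖ : O k) (t : Fin (d + 1) → blowupChart T A f), ϖ ≠ 0 ∧ ‖(ϖ : k)‖ < 1 ∧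
        IsSemistableOver ϖ t ∧ (∀ i, V.valuation (algebraMap T L (t i)) < 1) ∧
        ∀ x ∈ E, IsMonomialUpToUnit k (blowupChart T A f) t (algebraMap S T x) := by
  obtain ⟨d, n, f, hf, hf0, hfc, hV', ϖ, hϖ, hϖ1, φ, hφ, hφV, hφE⟩ :=
    DS.charts_points_two hp P hL htr ⟨hk, hV⟩ A hA hAS hAV E hE
  refine ⟨n, f, hf, hf0, hfc, hV', d, ϖ, fun i => φ (DS.SS.x i), hϖ, hϖ1,
    ⟨φ.comp (DS.SS.equiv d ϖ).toAlgHom, hφ, fun i => rfl⟩, hφV, fun x hx => ?_⟩
  obtain ⟨n, m, c, v, v', hc, hv, hv', hvv, hrel⟩ := hφE x hx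
  exact ⟨n, m, c, ⟨⟨v, hv⟩, ⟨v', hv'⟩, Subtype.ext hvv, Subtype.ext ((mul_comm _ _).trans hvv)⟩, hc,
    hrel⟩

end Pool.Agent.Results.MP_1a953e_ag.SurfacePoints
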